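import Pool.Agent.Y60.DC.Stm4

/-!
# Automorphisms of `SL_n(F)`, `F` finite, permute the root subgroups (job DCN-SYL)

For a pair `(v, φ)` with `φ v = 0` the matrices `1 + v α + w φ` (`α v = 0`, `φ w = 0`) form a
`p`-subgroup; a Sylow subgroup `Q` which contains it fixes `v` and `φ`, and the elements of `Q`
which commute with `Q` are exactly the transvections `1 + y v φ`. Sylow's theorem gives the rest.
-/

set_option autoImplicit false

namespace Pool.Agent.Y165.DCN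

open Matrix Pool.Agent.Y60.DC

section basic

variable {F : Type} [Field F] {n : ℕ}

lemma vv_mul (a b c d : Fin n → F) :
    vecMulVec a b * vecMulVec c d = (b ⬝ᵥ c) • vecMulVec a d := by
  rw [vecMulVec_mul_vecMulVec, vecMulVec_smul]

lemma vv_mulVec (a b c : Fin n → F) : vecMulVec a b *ᵥ c = (b ⬝ᵥ c) • a := by
  ext i
  simp only [mulVec, dotProduct, vecMulVec_apply, Pi.smul_apply, smul_eq_mul, Finset.sum_mul]
  exact Finset.sum_congr rfl fun j _ => by ring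

lemma vecMul_vv (c a b : Fin n → F) : c ᵥ* vecMulVec a b = (c ⬝ᵥ a) • b := by
  ext j
  simp only [vecMul, dotProduct, vecMulVec_apply, Pi.smul_apply, smul_eq_mul, Finset.sum_mul]
  exact Finset.sum_congr rfl fun i _ => by ring

/-- The nilpotent part. -/
def nn (v φ α w : Fin n → F) : Mn n F := vecMulVec v α + vecMulVec w φ

lemma nn_mul (v φ α w α' w' : Fin n → F) (hv : φ ⬝ᵥ v = 0) (ha : α ⬝ᵥ v = 0)
    (hw' : φ ⬝ᵥ w' = 0) :
    nn v φ α w * nn v φ α' w' = (α ⬝ᵥ w') • vecMulVec v φ := by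
  unfold nn
  rw [add_mul, mul_add, mul_add, vv_mul, vv_mul, vv_mul, vv_mul, ha, hv, hw']
  simp

lemma one_nn_mul (v φ α w α' w' : Fin n → F) (hv : φ ⬝ᵥ v = 0) (ha : α ⬝ᵥ v = 0)
    (hw' : φ ⬝ᵥ w' = 0) :
    (1 + nn v φ α w) * (1 + nn v φ α' w') =
      1 + nn v φ (α + α' + (α ⬝ᵥ w') • φ) (w + w') := by
  have h : (1 + nn v φ α w) * (1 + nn v φ α' w') =
      1 + (nn v φ α w + nn v φ α' w' + nn v φ α w * nn v φ α' w') := by
    noncomm_ring
  rw [h, nn_mul v φ α w α' w' hv ha hw']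
  congr 1
  unfold nn
  rw [vecMulVec_add, vecMulVec_add, vecMulVec_smul, add_vecMulVec]
  abel

lemma nn_cube (v φ α w : Fin n → F) (hv : φ ⬝ᵥ v = 0) (ha : α ⬝ᵥ v = 0) (hw : φ ⬝ᵥ w = 0) :
    nn v φ α w ^ 3 = 0 := by
  rw [pow_succ, pow_two, nn_mul v φ α w α w hv ha hw, smul_mul_assoc]
  unfold nn
  rw [mul_add, vv_mul, vv_mul, hv, hw]
  simp

lemma det_tv (v α : Fin n → F) : (1 + vecMulVec v α : Mn n F).det = 1 + α ⬝ᵥ v := by
  rw [vecMulVec_eq Unit, det_one_add_replicateCol_mul_replicateRow]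

lemma det_one_nn (v φ α w : Fin n → F) (hv : φ ⬝ᵥ v = 0) (ha : α ⬝ᵥ v = 0) (hw : φ ⬝ᵥ w = 0) :
    (1 + nn v φ α w).det = 1 := by
  have h : (1 + nn v φ α w) = (1 + vecMulVec w φ) * (1 + vecMulVec v α) := by
    unfold nn
    rw [mul_add, add_mul, add_mul, vv_mul, hv]
    simp
    abel
  rw [h, det_mul, det_tv, det_tv, ha, hw]
  simp

/-- The subgroup of the matrices `1 + v α + w φ`. -/
def hh (v φ : Fin n → F) (hv : φ ⬝ᵥ v = 0) : Subgroup (SLn n F) where
  carrier := {A | ∃ α w : Fin n → F, α ⬝ᵥ v = 0 ∧ φ ⬝ᵥ w = 0 ∧ (A : Mn n F) = 1 + nn v φ α w}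
  one_mem' := ⟨0, 0, by simp, by simp, by simp [nn]⟩
  mul_mem' := by
    rintro A B ⟨α, w, ha, hw, hA⟩ ⟨α', w', ha', hw', hB⟩
    refine ⟨α + α' + (α ⬝ᵥ w') • φ, w + w', ?_, ?_, ?_⟩
    · rw [add_dotProduct, add_dotProduct, smul_dotProduct, ha, ha', hv]; simp
    · rw [dotProduct_add, hw, hw']; simp
    · change (A : Mn n F) * (B : Mn n F) = _
      rw [hA, hB, one_nn_mul v φ α w α' w' hv ha hw']
  inv_mem' := by
    rintro A ⟨α, w, ha, hw, hA⟩
    refine ⟨-α + (α ⬝ᵥ w) • φ, -w, ?_, ?_, ?_⟩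
    · rw [add_dotProduct, neg_dotProduct, smul_dotProduct, ha, hv]; simp
    · rw [dotProduct_neg, hw]; simp
    · have ha2 : (-α + (α ⬝ᵥ w) • φ) ⬝ᵥ v = 0 := by
        rw [add_dotProduct, neg_dotProduct, smul_dotProduct, ha, hv]; simp
      have hw2 : φ ⬝ᵥ (-w) = 0 := by rw [dotProduct_neg, hw]; simp
      let B : SLn n F := ⟨1 + nn v φ (-α + (α ⬝ᵥ w) • φ) (-w),
        det_one_nn v φ _ _ hv ha2 hw2⟩
      have hAB : A * B = 1 := by
        apply Subtype.ext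
        change (A : Mn n F) * (1 + nn v φ (-α + (α ⬝ᵥ w) • φ) (-w)) = 1
        rw [hA, one_nn_mul v φ α w _ _ hv ha hw2]
        have e1 : α + (-α + (α ⬝ᵥ w) • φ) + (α ⬝ᵥ (-w)) • φ = 0 := by
          rw [dotProduct_neg, neg_smul]; abel
        have e2 : w + -w = 0 := by simp
        rw [e1, e2]
        simp [nn]
      have := inv_eq_of_mul_eq_one_right hAB
      rw [this]

lemma hh_isPGroup (p : ℕ) [Fact p.Prime] [CharP F p] (hn : 0 < n) (v φ : Fin n → F)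
    (hv : φ ⬝ᵥ v = 0) : IsPGroup p (hh v φ hv) := by
  have : Nonempty (Fin n) := ⟨⟨0, hn⟩⟩
  rintro ⟨A, α, w, ha, hw, hA⟩
  refine ⟨2, ?_⟩
  apply Subtype.ext
  apply Subtype.ext
  have e0 : ((A ^ p ^ 2 : SLn n F) : Mn n F) = (A : Mn n F) ^ p ^ 2 :=
    Matrix.SpecialLinearGroup.coe_pow A (p ^ 2)
  refine e0.trans ?_
  change (A : Mn n F) ^ p ^ 2 = 1
  rw [hA, add_pow_char_pow_of_commute _ _ (Commute.one_left _), one_pow]
  have hp : 3 ≤ p ^ 2 := by
    have := (Fact.out : p.Prime).two_le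
    nlinarith
  obtain ⟨k, hk⟩ := Nat.exists_eq_add_of_le hp
  rw [hk, pow_add, nn_cube v φ α w hv ha hw, zero_mul, add_zero]

lemma tv_mem (v φ : Fin n → F) (hv : φ ⬝ᵥ v = 0) (A : SLn n F) (α : Fin n → F)
    (ha : α ⬝ᵥ v = 0) (hA : (A : Mn n F) = 1 + vecMulVec v α) : A ∈ hh v φ hv :=
  ⟨α, 0, ha, by simp, by rw [hA]; simp [nn]⟩

lemma tv_mem' (v φ : Fin n → F) (hv : φ ⬝ᵥ v = 0) (A : SLn n F) (w : Fin n → F)
    (hw : φ ⬝ᵥ w = 0) (hA : (A : Mn n F) = 1 + vecMulVec w φ) : A ∈ hh v φ hv :=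
  ⟨0, w, by simp, hw, by rw [hA]; simp [nn]⟩

/-- The transvection as an element of `SL_n`. -/
def tr (v α : Fin n → F) (h : α ⬝ᵥ v = 0) : SLn n F :=
  ⟨1 + vecMulVec v α, by rw [det_tv, h, add_zero]⟩

lemma tr_coe (v α : Fin n → F) (h : α ⬝ᵥ v = 0) :
    ((tr v α h : SLn n F) : Mn n F) = 1 + vecMulVec v α := rfl

/-- The covector `v_i e_j - v_j e_i`. -/
def cv (v : Fin n → F) (i j : Fin n) : Fin n → F := v i • Pi.single j 1 - v j • Pi.single i 1

lemma cv_dot (v u : Fin n → F) (i j : Fin n) : cv v i j ⬝ᵥ u = v i * u j - v j * u i := by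
  unfold cv
  rw [sub_dotProduct, smul_dotProduct, smul_dotProduct, single_dotProduct, single_dotProduct]
  simp

lemma dot_cv (v u : Fin n → F) (i j : Fin n) : u ⬝ᵥ cv v i j = v i * u j - v j * u i := by
  rw [dotProduct_comm, cv_dot]

/-- A vector killed by all covectors which kill `v` is a multiple of `v`. -/
lemma prop_of (v u : Fin n → F) (hv0 : v ≠ 0) (hu0 : u ≠ 0)
    (h : ∀ α : Fin n → F, α ⬝ᵥ v = 0 → α ⬝ᵥ u = 0) : ∃ c : F, c ≠ 0 ∧ u = c • v := by
  obtain ⟨i, hi⟩ := Function.ne_iff.1 hv0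
  have hi' : v i ≠ 0 := hi
  have h1 : ∀ j, u j = (u i / v i) * v j := by
    intro j
    have h2 := h (cv v i j) (by rw [cv_dot]; ring)
    rw [cv_dot] at h2
    field_simp
    linear_combination h2
  refine ⟨u i / v i, ?_, ?_⟩
  · intro h0
    apply hu0
    ext j
    rw [h1 j, h0]; simp
  · ext j
    rw [h1 j]; simp

end basic

section fixed

variable {F : Type} [Field F] [Finite F] {n : ℕ}

lemma fixvec (p : ℕ) [Fact p.Prime] [CharP F p] (hn : 0 < n) (Q : Subgroup (SLn n F))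
    (hQ : IsPGroup p Q) (ρ : SLn n F → (Fin n → F) → (Fin n → F)) (h1 : ∀ u, ρ 1 u = u)
    (hm : ∀ g h u, ρ (g * h) u = ρ g (ρ h u)) (h0 : ∀ g, ρ g 0 = 0) :
    ∃ u : Fin n → F, u ≠ 0 ∧ ∀ g ∈ Q, ρ g u = u := by
  classical
  let act : MulAction Q (Fin n → F) :=
    { smul := fun g u => ρ (g : SLn n F) u
      one_smul := fun u => h1 u
      mul_smul := fun g h u => hm g h u }
  have hsm : ∀ (g : Q) (u : Fin n → F), @HSMul.hSMul _ _ _ (@instHSMul _ _ act.toSMul) g u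
      = ρ (g : SLn n F) u := fun _ _ => rfl
  have hp : (p : ℕ) ∣ Nat.card (Fin n → F) := by
    rw [Nat.card_fun, Nat.card_fin]
    have h2 : p ∣ Nat.card F := by
      have := Fintype.ofFinite F
      obtain ⟨k, hp, hk⟩ := FiniteField.card F p
      rw [Nat.card_eq_fintype_card, hk]
      exact dvd_pow_self p (by exact k.ne_zero)
    exact h2.trans (dvd_pow_self _ (by omega))
  have hz : (0 : Fin n → F) ∈ @MulAction.fixedPoints Q (Fin n → F) _ act := by
    intro g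
    exact h0 g
  obtain ⟨b, hb, hne⟩ := @IsPGroup.exists_fixed_point_of_prime_dvd_card_of_fixed_point p Q _ hQ _
    (Fin n → F) act _ hp 0 hz
  refine ⟨b, hne.symm, fun g hg => ?_⟩
  exact hb ⟨g, hg⟩

/-- A Sylow subgroup which contains `hh v φ` fixes `v` and `φ`. -/
lemma sylow_fix (p : ℕ) [Fact p.Prime] [CharP F p] (hn : 0 < n) (v φ : Fin n → F)
    (hv0 : v ≠ 0) (hφ0 : φ ≠ 0) (hv : φ ⬝ᵥ v = 0) (Q : Subgroup (SLn n F)) (hQ : IsPGroup p Q)
    (hle : hh v φ hv ≤ Q) :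
    (∀ g ∈ Q, ((g : SLn n F) : Mn n F) *ᵥ v = v) ∧
      (∀ g ∈ Q, φ ᵥ* ((g : SLn n F) : Mn n F) = φ) := by
  have hcm : ∀ g h : SLn n F, ((g * h : SLn n F) : Mn n F) = (g : Mn n F) * (h : Mn n F) :=
    fun _ _ => rfl
  have hc1 : ((1 : SLn n F) : Mn n F) = 1 := rfl
  constructor
  · obtain ⟨u, hu0, hu⟩ := fixvec p hn Q hQ (fun g u => (g : Mn n F) *ᵥ u)
      (fun u => by change ((1 : SLn n F) : Mn n F) *ᵥ u = u; rw [hc1, one_mulVec])
      (fun g h u => by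
        change ((g * h : SLn n F) : Mn n F) *ᵥ u = (g : Mn n F) *ᵥ ((h : Mn n F) *ᵥ u)
        rw [hcm, mulVec_mulVec])
      (fun g => by change (g : Mn n F) *ᵥ 0 = 0; rw [mulVec_zero])
    have hu' : ∀ g ∈ Q, ((g : SLn n F) : Mn n F) *ᵥ u = u := hu
    obtain ⟨c, hc, hcu⟩ := prop_of v u hv0 hu0 (fun α hα => by
      have h1 := hu' (tr v α hα) (hle (tv_mem v φ hv _ α hα rfl))
      rw [tr_coe, add_mulVec, one_mulVec, vv_mulVec] at h1
      have h2 : (α ⬝ᵥ u) • v = 0 := by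
        have h3 := h1
        rwa [add_eq_left] at h3
      rcases smul_eq_zero.1 h2 with h4 | h4
      · exact h4
      · exact absurd h4 hv0)
    intro g hg
    have h5 := hu' g hg
    rw [hcu, mulVec_smul] at h5
    exact smul_right_injective _ hc h5
  · obtain ⟨u, hu0, hu⟩ := fixvec p hn Q hQ (fun g u => u ᵥ* ((g⁻¹ : SLn n F) : Mn n F))
      (fun u => by
        change u ᵥ* (((1 : SLn n F)⁻¹ : SLn n F) : Mn n F) = u
        rw [inv_one, hc1, vecMul_one])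
      (fun g h u => by
        change u ᵥ* (((g * h)⁻¹ : SLn n F) : Mn n F) =
          (u ᵥ* ((h⁻¹ : SLn n F) : Mn n F)) ᵥ* ((g⁻¹ : SLn n F) : Mn n F)
        rw [_root_.mul_inv_rev, hcm, vecMul_vecMul])
      (fun g => by change 0 ᵥ* ((g⁻¹ : SLn n F) : Mn n F) = 0; rw [zero_vecMul])
    have hu' : ∀ g ∈ Q, u ᵥ* ((g : SLn n F) : Mn n F) = u := by
      intro g hg
      have h1 : u ᵥ* (((g⁻¹)⁻¹ : SLn n F) : Mn n F) = u := hu g⁻¹ (Q.inv_mem hg)
      rwa [inv_inv] at h1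
    obtain ⟨c, hc, hcu⟩ := prop_of φ u hφ0 hu0 (fun α hα => by
      have hα' : φ ⬝ᵥ α = 0 := by rw [dotProduct_comm]; exact hα
      have h1 := hu' (tr α φ hα') (hle (tv_mem' v φ hv _ α hα' rfl))
      rw [tr_coe, vecMul_add, vecMul_one, vecMul_vv] at h1
      have h2 : (u ⬝ᵥ α) • φ = 0 := by
        have h3 := h1
        rwa [add_eq_left] at h3
      rcases smul_eq_zero.1 h2 with h4 | h4
      · rw [dotProduct_comm]; exact h4
      · exact absurd h4 hφ0)
    intro g hg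
    have h5 := hu' g hg
    rw [hcu, smul_vecMul] at h5
    exact smul_right_injective _ hc h5

end fixed

section centre

variable {F : Type} [Field F] {n : ℕ}

/-- An element which fixes `v`, `φ` and commutes with `hh v φ` is a transvection `1 + y v φ`. -/
lemma cent (v φ : Fin n → F) (hv0 : v ≠ 0) (hφ0 : φ ≠ 0) (hv : φ ⬝ᵥ v = 0) (B : SLn n F)
    (hBv : (B : Mn n F) *ᵥ v = v) (hBφ : φ ᵥ* (B : Mn n F) = φ)
    (hcomm : ∀ b ∈ hh v φ hv, B * b = b * B) : ∃ y : F, (B : Mn n F) = tv v (y • φ) := by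
  obtain ⟨i0, hi0⟩ := Function.ne_iff.1 hv0
  obtain ⟨j0, hj0⟩ := Function.ne_iff.1 hφ0
  have hi0' : v i0 ≠ 0 := hi0
  have hj0' : φ j0 ≠ 0 := hj0
  have hcm : ∀ g h : SLn n F, ((g * h : SLn n F) : Mn n F) = (g : Mn n F) * (h : Mn n F) :=
    fun _ _ => rfl
  -- rows
  have hr : ∀ α : Fin n → F, α ⬝ᵥ v = 0 → α ᵥ* (B : Mn n F) = α := by
    intro α hα
    have h1 := congrArg (fun X : SLn n F => (X : Mn n F))
      (hcomm (tr v α hα) (tv_mem v φ hv _ α hα rfl))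
    simp only [hcm, tr_coe] at h1
    rw [mul_add, add_mul, mul_one, one_mul, mul_vecMulVec, vecMulVec_mul, hBv] at h1
    have h2 := add_left_cancel h1
    ext j
    have h3 := congrFun (congrFun h2 i0) j
    rw [vecMulVec_apply, vecMulVec_apply] at h3
    exact (mul_left_cancel₀ hi0' h3).symm
  have hc : ∀ w : Fin n → F, φ ⬝ᵥ w = 0 → (B : Mn n F) *ᵥ w = w := by
    intro w hw
    have h1 := congrArg (fun X : SLn n F => (X : Mn n F))
      (hcomm (tr w φ hw) (tv_mem' v φ hv _ w hw rfl))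
    simp only [hcm, tr_coe] at h1
    rw [mul_add, add_mul, mul_one, one_mul, mul_vecMulVec, vecMulVec_mul, hBφ] at h1
    have h2 := add_left_cancel h1
    ext i
    have h3 := congrFun (congrFun h2 i) j0
    rw [vecMulVec_apply, vecMulVec_apply] at h3
    exact mul_right_cancel₀ hj0' h3
  set N : Mn n F := (B : Mn n F) - 1 with hN
  have hBN : (B : Mn n F) = 1 + N := by rw [hN]; abel
  have hr' : ∀ i j, v i0 * N i j = v i * N i0 j := by
    intro i j
    have h1 := hr (cv v i0 i) (by rw [cv_dot]; ring)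
    have h2 : cv v i0 i ᵥ* N = 0 := by
      rw [hN, vecMul_sub, h1, vecMul_one, sub_self]
    have h3 := congrFun h2 j
    have h4 : (cv v i0 i ᵥ* N) j = cv v i0 i ⬝ᵥ (fun k => N k j) := rfl
    rw [h4, cv_dot] at h3
    simp only [Pi.zero_apply] at h3
    linear_combination h3
  have hc' : ∀ i j, φ j0 * N i j = φ j * N i j0 := by
    intro i j
    have h1 := hc (cv φ j0 j) (by rw [dot_cv]; ring)
    have h2 : N *ᵥ cv φ j0 j = 0 := by
      rw [hN, sub_mulVec, h1, one_mulVec, sub_self]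
    have h3 := congrFun h2 i
    have h4 : (N *ᵥ cv φ j0 j) i = (fun k => N i k) ⬝ᵥ cv φ j0 j := rfl
    rw [h4, dot_cv] at h3
    simp only [Pi.zero_apply] at h3
    linear_combination h3
  refine ⟨N i0 j0 / (v i0 * φ j0), ?_⟩
  rw [hBN]
  unfold tv
  congr 1
  ext i j
  rw [vecMulVec_apply, Pi.smul_apply, smul_eq_mul]
  have e1 := hr' i j
  have e2 := hc' i0 j
  field_simp
  have e3 : φ j0 * (v i0 * N i j) = φ j0 * (v i * N i0 j) := by rw [e1]
  linear_combination e3 + v i * e2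

end centre

open scoped Pointwise in
/-- DCN-SYL. -/
theorem syl_holds : TaskSYL := by
  intro F _ _ n hn f v φ hv0 hφ0 hv
  obtain ⟨p, hp⟩ := CharP.exists F
  have hpp : p.Prime := by
    rcases CharP.char_is_prime_or_zero F p with h | h
    · exact h
    · subst h
      have h0 : CharZero F := CharP.charP_to_charZero F
      have : Infinite F := Infinite.of_injective (Nat.cast : ℕ → F) Nat.cast_injective
      exact (not_finite F).elim
  have : Fact p.Prime := ⟨hpp⟩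
  have hn0 : 0 < n := by omega
  obtain ⟨Q, hQ⟩ := (hh_isPGroup p hn0 v φ hv).exists_le_sylow
  obtain ⟨fixv, fixφ⟩ := sylow_fix p hn0 v φ hv0 hφ0 hv (Q : Subgroup (SLn n F)) Q.isPGroup' hQ
  have hcm : ∀ g h : SLn n F, ((g * h : SLn n F) : Mn n F) = (g : Mn n F) * (h : Mn n F) :=
    fun _ _ => rfl
  have hc1 : ((1 : SLn n F) : Mn n F) = 1 := rfl
  have : Finite (SLn n F) := by
    have : Finite (Mn n F) := inferInstanceAs (Finite (Fin n → Fin n → F))
    exact Subtype.finite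
  obtain ⟨g, hg⟩ := MulAction.exists_smul_eq (SLn n F) Q (f • Q)
  have hgQ : ∀ b ∈ (Q : Subgroup (SLn n F)), ∃ b' ∈ (Q : Subgroup (SLn n F)), g * b * g⁻¹ = f b' := by
    intro b hb
    have h1 : g * b * g⁻¹ ∈ ((g • Q : Sylow p (SLn n F)) : Subgroup (SLn n F)) := by
      rw [Sylow.coe_subgroup_smul]
      exact ⟨b, hb, rfl⟩
    rw [hg, Sylow.pointwise_smul_def] at h1
    obtain ⟨b', hb', hbb⟩ := h1
    exact ⟨b', hb', hbb.symm⟩
  have hfQ : ∀ a ∈ (Q : Subgroup (SLn n F)), ∃ b ∈ (Q : Subgroup (SLn n F)), f a = g * b * g⁻¹ := by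
    intro a ha
    have h1 : f a ∈ ((f • Q : Sylow p (SLn n F)) : Subgroup (SLn n F)) := by
      rw [Sylow.pointwise_smul_def]
      exact ⟨a, ha, rfl⟩
    rw [← hg, Sylow.coe_subgroup_smul] at h1
    obtain ⟨b, hb, hbb⟩ := h1
    exact ⟨b, hb, hbb.symm⟩
  have hgg : (g : Mn n F) * ((g⁻¹ : SLn n F) : Mn n F) = 1 := by
    rw [← hcm, mul_inv_cancel, hc1]
  have hgg' : ((g⁻¹ : SLn n F) : Mn n F) * (g : Mn n F) = 1 := by
    rw [← hcm, inv_mul_cancel, hc1]
  refine ⟨(g : Mn n F) *ᵥ v, φ ᵥ* ((g⁻¹ : SLn n F) : Mn n F), ?_, ?_, ?_, ?_⟩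
  · intro h0
    apply hv0
    have h1 : ((g⁻¹ : SLn n F) : Mn n F) *ᵥ ((g : Mn n F) *ᵥ v) = v := by
      rw [mulVec_mulVec, hgg', one_mulVec]
    rw [← h1, h0, mulVec_zero]
  · intro h0
    apply hφ0
    have h1 : (φ ᵥ* ((g⁻¹ : SLn n F) : Mn n F)) ᵥ* (g : Mn n F) = φ := by
      rw [vecMul_vecMul, hgg', vecMul_one]
    rw [← h1, h0, zero_vecMul]
  · rw [dotProduct_mulVec, vecMul_vecMul, hgg', vecMul_one, hv]
  · intro x A hA
    have hAv : (x • φ) ⬝ᵥ v = 0 := by rw [smul_dotProduct, hv, smul_zero]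
    have hAQ : A ∈ (Q : Subgroup (SLn n F)) := hQ (tv_mem v φ hv A (x • φ) hAv hA)
    have hAc : ∀ b ∈ (Q : Subgroup (SLn n F)), A * b = b * A := by
      intro b hb
      apply Subtype.ext
      change (A : Mn n F) * (b : Mn n F) = (b : Mn n F) * (A : Mn n F)
      rw [hA]
      unfold tv
      rw [mul_add, add_mul, mul_one, one_mul, mul_vecMulVec, vecMulVec_mul, fixv b hb,
        smul_vecMul, fixφ b hb]
    obtain ⟨B, hB, hBA⟩ := hfQ A hAQ
    have hBc : ∀ b ∈ (Q : Subgroup (SLn n F)), B * b = b * B := by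
      intro b hb
      obtain ⟨b', hb', hbb⟩ := hgQ b hb
      have h1 : f A * f b' = f b' * f A := by
        rw [← map_mul, hAc b' hb', map_mul]
      rw [hBA, ← hbb] at h1
      have h2 : g * (B * b) * g⁻¹ = g * (b * B) * g⁻¹ := by
        calc g * (B * b) * g⁻¹ = g * B * g⁻¹ * (g * b * g⁻¹) := by group
          _ = g * b * g⁻¹ * (g * B * g⁻¹) := h1
          _ = g * (b * B) * g⁻¹ := by group
      exact mul_left_cancel (mul_right_cancel h2)
    obtain ⟨y, hy⟩ := cent v φ hv0 hφ0 hv B (fixv B hB) (fixφ B hB) (fun b hb => hBc b (hQ hb))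
    refine ⟨y, ?_⟩
    rw [hBA, hcm, hcm, hy]
    unfold tv
    rw [mul_add, add_mul, mul_one, hgg, mul_vecMulVec, vecMulVec_mul, smul_vecMul]


end Pool.Agent.Y165.DCN
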